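import Mathlib

namespace Pool.Agent.Results.MP_16712d_co.Two

/-- The `h`-fold signed sumset. -/
def hpm (h : ℕ) {n : ℕ} (A : Finset (ZMod n)) : Set (ZMod n) :=
  {g | ∃ l : ZMod n → ℤ, (∑ a ∈ A, |l a|) = (h : ℤ) ∧ (∑ a ∈ A, l a • a) = g}

/-- The largest size of `h_± A` over `m`-element subsets `A` of `ZMod n`. -/
noncomputable def nu (n m h : ℕ) : ℕ :=
  sSup {k : ℕ | ∃ A : Finset (ZMod n), A.card = m ∧ (hpm h A).ncard = k}

/-- `A` is a `B_h` set over `ℤ`: distinct coefficient vectors of `ℓ¹`-norm `h` give distinct sums. -/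
def Bh (h : ℕ) {G : Type} [AddCommGroup G] (A : Finset G) : Prop :=
  ∀ l l' : G → ℤ, (∑ a ∈ A, |l a|) = (h : ℤ) → (∑ a ∈ A, |l' a|) = (h : ℤ) →
    (∑ a ∈ A, l a • a) = (∑ a ∈ A, l' a • a) → ∀ a ∈ A, l a = l' a

def Q2 (k : ℕ) {G : Type} [AddCommGroup G] (a b : G) : Prop :=
  ∀ p q : ℤ, |p| < (k : ℤ) → |q| < (k : ℤ) → p • a + q • b = 0 → p = 0 ∧ q = 0

lemma sph (h p q : ℤ) (hp : |p| < h + 1) (hq : |q| < h + 1) : ∃ x y x' y' : ℤ,
    |x| + |y| = h ∧ |x'| + |y'| = h ∧ x - x' = p + q ∧ y - y' = p - q := by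
  rw [abs_lt] at hp hq
  rcases le_total 0 p with h1 | h1 <;> rcases le_total 0 q with h2 | h2
  · refine ⟨q, h - q, -p, h - p, ?_, ?_, by ring, by ring⟩ <;> simp only [abs_eq_max_neg] <;> omega
  · refine ⟨h + q, -q, h - p, -p, ?_, ?_, by ring, by ring⟩ <;> simp only [abs_eq_max_neg] <;> omega
  · refine ⟨-h + q, -q, -h - p, -p, ?_, ?_, by ring, by ring⟩ <;> simp only [abs_eq_max_neg] <;> omega
  · refine ⟨q, -h - q, -p, -h - p, ?_, ?_, by ring, by ring⟩ <;> simp only [abs_eq_max_neg] <;> omega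

lemma pair {h : ℕ} {G : Type} [AddCommGroup G] {A : Finset G} (H : Bh h A)
    (h2 : 1 < A.card) : ∃ a b : G, Q2 (h + 1) (a + b) (a - b) := by
  classical
  obtain ⟨a, ha, b, hb, hab⟩ := Finset.one_lt_card.1 h2
  refine ⟨a, b, fun p q h1 h3 h4 => ?_⟩
  obtain ⟨x, y, x', y', e1, e2, e3, e4⟩ := sph h p q (by simpa using h1) (by simpa using h3)
  have := H (fun z => if z = a then x else if z = b then y else 0)
    (fun z => if z = a then x' else if z = b then y' else 0) (by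
    rw [Finset.sum_eq_add_of_mem a b ha hb hab (by intro c _ hc; simp [hc.1, hc.2])]
    simpa [hab.symm] using e1) (by
    rw [Finset.sum_eq_add_of_mem a b ha hb hab (by intro c _ hc; simp [hc.1, hc.2])]
    simpa [hab.symm] using e2) (by
    rw [Finset.sum_eq_add_of_mem a b ha hb hab (by intro c _ hc; simp [hc.1, hc.2]),
      Finset.sum_eq_add_of_mem a b ha hb hab (by intro c _ hc; simp [hc.1, hc.2])]
    simp only [if_true, hab.symm, if_false]
    rw [show x = x' + (p + q) by omega, show y = y' + (p - q) by omega, ← sub_eq_zero, ← h4]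
    module)
  have f1 : x = x' := by simpa using this a ha
  have f2 : y = y' := by simpa [hab.symm] using this b hb
  omega

lemma unpair {h : ℕ} (ht : 1 ≤ h) {G : Type} [AddCommGroup G] {a b : G}
    (H : Q2 (h + 1) (a + b) (a - b)) : ∃ A : Finset G, Bh h A ∧ A.card = 2 := by
  classical
  have hab : a ≠ b := by
    rintro rfl
    have := H 0 1 (by simp) (by simp; omega) (by simp)
    omega
  refine ⟨{a, b}, fun l l' h1 h2 h3 => ?_, Finset.card_pair hab⟩
  rw [Finset.sum_pair hab] at h1 h2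
  rw [Finset.sum_pair hab, Finset.sum_pair hab] at h3
  simp only [abs_eq_max_neg] at h1 h2
  obtain ⟨p, hp⟩ : ∃ p : ℤ, l a - l' a + (l b - l' b) = 2 * p :=
    ⟨(l a - l' a + (l b - l' b)) / 2, by omega⟩
  have := H p (l a - l' a - p) (by rw [abs_lt]; push_cast; omega) (by rw [abs_lt]; push_cast; omega) (by
    rw [← sub_eq_zero.2 h3, show l b = 2 * p + l' b - (l a - l' a) by omega]
    module)
  intro c hc
  simp at hc
  rcases hc with rfl | rfl <;> omega

lemma box {G : Type} [AddCommGroup G] [Finite G] (a b : G) (U V : ℕ) (h : Nat.card G < U * V) :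
    ∃ x y : ℤ, (x ≠ 0 ∨ y ≠ 0) ∧ |x| < U ∧ |y| < V ∧ x • a + y • b = 0 := by
  classical
  haveI := Fintype.ofFinite G
  obtain ⟨⟨u, j⟩, ⟨u', j'⟩, hne, he⟩ := Fintype.exists_ne_map_eq_of_card_lt
    (fun p : Fin U × Fin V => ((p.1 : ℤ) • a + (p.2 : ℤ) • b))
    (by simpa [Nat.card_eq_fintype_card] using h)
  have h1 := u.2
  have h2 := u'.2
  have h3 := j.2
  have h4 := j'.2
  refine ⟨(u : ℤ) - u', (j : ℤ) - j', ?_, ?_, ?_, ?_⟩
  · by_contra hc
    push Not at hc
    apply hne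
    refine Prod.ext (Fin.ext ?_) (Fin.ext ?_) <;> simp only <;> omega
  · rw [abs_lt]; omega
  · rw [abs_lt]; omega
  · simp only at he
    rw [sub_smul, sub_smul, ← sub_eq_zero.2 he]; abel

lemma lower {k : ℕ} {G : Type} [AddCommGroup G] [Finite G] {a b : G}
    (h : Q2 k a b) : k * k ≤ Nat.card G := by
  by_contra hc
  push Not at hc
  obtain ⟨x, y, h0, h1, h2, h3⟩ := box a b k k hc
  have := h x y h1 h2 h3
  omega

lemma kill {k n : ℕ} (hn0 : 0 < n) (hn : n < 2 * (k * k)) {a b : ZMod n}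
    (h : Q2 k a b) (g : ℤ) (ha : g • a = 0) (hb : g • b = 0) : (n : ℤ) ∣ g := by
  haveI : NeZero n := ⟨hn0.ne'⟩
  let K : AddSubgroup (ZMod n) := (zsmulAddGroupHom g : ZMod n →+ ZMod n).ker
  have hK : Q2 k (⟨a, ha⟩ : K) ⟨b, hb⟩ := fun x y h1 h1' h2 =>
    h x y h1 h1' (by simpa using congrArg Subtype.val h2)
  have h1 := lower hK
  have h2 := K.card_mul_index
  rw [Nat.card_zmod] at h2
  have h3 : K.index = 1 := by
    rcases hi : K.index with _ | _ | k
    · rw [hi] at h2; omega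
    · rfl
    · rw [hi] at h2; nlinarith
  rw [AddSubgroup.index_eq_one] at h3
  have h4 : (1 : ZMod n) ∈ K := by rw [h3]; trivial
  have h5 : g • (1 : ZMod n) = 0 := h4
  rw [← ZMod.intCast_zmod_eq_zero_iff_dvd]
  simpa using h5

lemma vec {k n : ℕ} (hn0 : 0 < n) (hn : n < (k + 1) * k) {a b : ZMod n}
    (h : Q2 k a b) : ∃ c : ℤ, |c| < k ∧ (k : ℤ) • a + c • b = 0 := by
  haveI : NeZero n := ⟨hn0.ne'⟩
  obtain ⟨x, y, h0, h1, h2, h3⟩ := box a b (k + 1) k (by rwa [Nat.card_zmod])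
  have h4 : x = k ∨ x = -k := by
    by_contra hc
    have := h x y (by rw [abs_lt] at h1 ⊢; omega) h2 h3
    omega
  rcases h4 with rfl | rfl
  · exact ⟨y, h2, h3⟩
  · refine ⟨-y, by rwa [abs_neg], ?_⟩
    rw [← neg_eq_zero, ← h3]; module

lemma key {k n : ℕ} (hk : k % 2 = 0) (h2 : n % 2 = 0) (hn0 : 0 < n) (hn : n < (k + 1) * k)
    {a b : ZMod n} (h : Q2 k (a + b) (a - b)) : False := by
  haveI : NeZero n := ⟨hn0.ne'⟩
  have h' : Q2 k (a - b) (a + b) := fun x y e1 e2 e3 => (h y x e2 e1 (by rwa [add_comm])).symm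
  have h1 := lower h
  rw [Nat.card_zmod] at h1
  obtain ⟨c, hc, ec⟩ := vec hn0 hn h
  obtain ⟨d, hd, ed⟩ := vec hn0 hn h'
  rw [abs_lt] at hc hd
  have hcd : c * d ≤ 0 := by
    by_contra hp
    push Not at hp
    rcases pos_and_pos_or_neg_and_neg_of_mul_pos hp with ⟨p1, p2⟩ | ⟨p1, p2⟩
    · have := h (k - d) (c - k) (by rw [abs_lt]; omega) (by rw [abs_lt]; omega) (by
        simp only [zsmul_eq_mul] at ec ed ⊢; push_cast at ec ed ⊢; linear_combination ec - ed)
      omega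
    · have := h (k + d) (c + k) (by rw [abs_lt]; omega) (by rw [abs_lt]; omega) (by
        simp only [zsmul_eq_mul] at ec ed ⊢; push_cast at ec ed ⊢; linear_combination ec + ed)
      omega
  have hk1 : 1 ≤ k := by omega
  have hlt : n < 2 * (k * k) := by nlinarith
  have hz1 : (k * k : ℤ) ≤ n := by exact_mod_cast h1
  have hb : -(c * d) < k * k := by nlinarith
  obtain ⟨j, hj⟩ : ∃ j : ℤ, (k : ℤ) = 2 * j := ⟨k / 2, by omega⟩
  obtain ⟨m, hm⟩ : ∃ m : ℤ, (n : ℤ) = 2 * m := ⟨n / 2, by omega⟩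
  have hm0 : (2 * m : ZMod n) = 0 := by
    have : ((n : ℤ) : ZMod n) = 0 := by simp
    rw [hm] at this; push_cast at this; exact this
  rw [hj] at ec ed
  simp only [zsmul_eq_mul] at ec ed
  have nm : ¬ ((m : ZMod n) * (a - b) = 0) := fun e => by
    have := Int.le_of_dvd (by omega) (kill hn0 hlt h m
      (by simp only [zsmul_eq_mul]; linear_combination e + b * hm0) (by simpa using e))
    omega
  obtain ⟨c', rfl⟩ : ∃ c', c = 2 * c' := by
    rcases Int.even_or_odd' c with ⟨c', e | e⟩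
    · exact ⟨c', e⟩
    · exfalso; apply nm; rw [e] at ec; push_cast at ec
      linear_combination (m : ZMod n) * ec - (j * (a + b) + c' * (a - b)) * hm0
  obtain ⟨d', rfl⟩ : ∃ d', d = 2 * d' := by
    rcases Int.even_or_odd' d with ⟨d', e | e⟩
    · exact ⟨d', e⟩
    · exfalso; apply nm; rw [e] at ed; push_cast at ed
      linear_combination (m : ZMod n) * ed - (j * (a - b) + d' * (a + b) + b) * hm0
  push_cast at ec ed
  have := Int.le_of_dvd (by nlinarith) (kill hn0 hlt h (2 * j * j - 2 * c' * d')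
    (by simp only [zsmul_eq_mul]; push_cast
        linear_combination (j : ZMod n) * ec - (c' : ZMod n) * ed)
    (by simp only [zsmul_eq_mul]; push_cast
        linear_combination (j : ZMod n) * ed - (d' : ZMod n) * ec))
  nlinarith

lemma mk {k n : ℕ} (a b e w : ℤ) (he : IsCoprime (n : ℤ) e) (h1 : a + b = e) (h2 : a - b = e * w)
    (hw : (k : ℤ) ≤ w) (hn : ((k : ℤ) - 1) * (w + 1) < n) :
    Q2 k ((a : ZMod n) + b) ((a : ZMod n) - b) := fun p q hp hq h => by
  have h3 : (n : ℤ) ∣ e * (p + w * q) := by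
    rw [← ZMod.intCast_zmod_eq_zero_iff_dvd, ← h, ← Int.cast_add, ← Int.cast_sub, h1, h2]
    simp only [zsmul_eq_mul]; push_cast; ring
  have hk := abs_nonneg p
  have h4 : p + w * q = 0 := by
    refine Int.eq_zero_of_abs_lt_dvd (he.dvd_of_dvd_mul_left h3) ?_
    have := abs_add_le p (w * q)
    rw [abs_mul, abs_of_nonneg (by omega : 0 ≤ w)] at this
    nlinarith
  have h5 : p = 0 := Int.eq_zero_of_abs_lt_dvd (m := w) ⟨-q, by linarith⟩ (by omega)
  refine ⟨h5, ?_⟩
  rw [h5, zero_add, mul_eq_zero] at h4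
  omega

theorem cyc (h n : ℕ) (hh : 2 ≤ h) (hn : 0 < n) :
    (∃ A : Finset (ZMod n), Bh h A ∧ A.card = 2) ↔
      (h + 1) ^ 2 ≤ n ∧ (h % 2 = 0 ∨ n % 2 = 1 ∨ (h + 1) * (h + 2) ≤ n) := by
  haveI : NeZero n := ⟨hn.ne'⟩
  constructor
  · rintro ⟨A, hA, h2⟩
    obtain ⟨a, b, hab⟩ := pair hA (by omega)
    have h1 := lower hab
    rw [Nat.card_zmod] at h1
    refine ⟨by nlinarith, ?_⟩
    by_contra hc
    push Not at hc
    exact key (by omega) (by omega) hn (by nlinarith) hab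
  · rintro ⟨h1, h2⟩
    have hz : ((h : ℤ) + 1) ^ 2 ≤ n := by exact_mod_cast h1
    rcases Nat.mod_two_eq_zero_or_one h with h0 | h0
    · obtain ⟨r, hr⟩ : ∃ r : ℤ, (h : ℤ) = 2 * r := ⟨h / 2, by omega⟩
      exact unpair (by omega) (mk (r + 1) (-r) 1 (h + 1) isCoprime_one_right (by ring) (by omega)
        (by push_cast; omega) (by push_cast; nlinarith))
    · rcases h2 with h2 | h2 | h2
      · omega
      · exact unpair (by omega) (mk (h + 2) (-h) 2 (h + 1) ⟨1, -(n / 2), by omega⟩ (by ring) (by ring)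
          (by push_cast; omega) (by push_cast; nlinarith))
      · have hz2 : ((h : ℤ) + 1) * (h + 2) ≤ n := by exact_mod_cast h2
        obtain ⟨r, hr⟩ : ∃ r : ℤ, (h : ℤ) = 2 * r + 1 := ⟨h / 2, by omega⟩
        exact unpair (by omega) (mk (r + 2) (-r - 1) 1 (h + 2) isCoprime_one_right (by ring) (by omega)
          (by push_cast; omega) (by push_cast; nlinarith))

def f (h : ℤ) (p : ℕ × ℕ) : ℤ × ℤ :=
  if p.2 = 0 then (h - p.1, p.1) else if p.2 = 1 then (-p.1, h - p.1)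
  else if p.2 = 2 then (p.1 - h, -p.1) else (p.1, p.1 - h)

def S (h : ℕ) : Finset (ℤ × ℤ) := (Finset.range h ×ˢ Finset.range 4).image (f h)

lemma cardS (h : ℕ) : (S h).card = 4 * h := by
  rw [S, Finset.card_image_of_injOn, Finset.card_product, Finset.card_range, Finset.card_range, mul_comm]
  rintro ⟨i, j⟩ h1 ⟨i', j'⟩ h2 e
  simp only [Finset.coe_product, Finset.coe_range, Set.mem_prod, Set.mem_Iio] at h1 h2
  simp only [f] at e
  split_ifs at e <;> simp only [Prod.mk.injEq] at e ⊢ <;> omega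

lemma memS {h : ℕ} (hh : 1 ≤ h) (x y : ℤ) : (x, y) ∈ S h ↔ |x| + |y| = h := by
  simp only [S, Finset.mem_image, Finset.mem_product, Finset.mem_range, abs_eq_max_neg]
  constructor
  · rintro ⟨⟨i, j⟩, h1, e⟩
    simp only [f] at e h1
    split_ifs at e <;> simp only [Prod.mk.injEq] at e <;> omega
  · intro e
    by_cases h1 : 0 < x ∧ 0 ≤ y
    · exact ⟨(y.toNat, 0), by simp only; omega, by simp [f]; omega⟩
    by_cases h2 : x ≤ 0 ∧ 0 < y
    · exact ⟨((-x).toNat, 1), by simp only; omega, by simp [f]; omega⟩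
    by_cases h3 : x < 0 ∧ y ≤ 0
    · exact ⟨((-y).toNat, 2), by simp only; omega, by simp [f]; omega⟩
    · exact ⟨(x.toNat, 3), by simp only; omega, by simp [f]; omega⟩

lemma link {h n : ℕ} (hh : 1 ≤ h) (A : Finset (ZMod n)) (hA : A.card = 2) :
    (hpm h A).ncard ≤ 4 * h ∧ ((hpm h A).ncard = 4 * h ↔ Bh h A) := by
  classical
  obtain ⟨a, b, hab, rfl⟩ := Finset.card_eq_two.1 hA
  have e : hpm h {a, b} = ↑((S h).image fun z => z.1 • a + z.2 • b) := by
    ext g
    simp only [hpm, Finset.sum_pair hab, Set.mem_setOf_eq, Finset.coe_image, Set.mem_image,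
      Finset.mem_coe]
    constructor
    · rintro ⟨l, h1, h2⟩
      exact ⟨(l a, l b), (memS hh _ _).2 h1, h2⟩
    · rintro ⟨⟨x, y⟩, h1, h2⟩
      exact ⟨fun z => if z = a then x else y, by simpa [hab.symm] using (memS hh _ _).1 h1,
        by simpa [hab.symm] using h2⟩
  rw [e, Set.ncard_coe_finset, ← cardS]
  refine ⟨Finset.card_image_le, ?_⟩
  rw [Finset.card_image_iff]
  simp only [Bh, Finset.sum_pair hab]
  constructor
  · intro H l l' h1 h2 h3 z hz
    have := H (x₁ := (l a, l b)) ((memS hh _ _).2 h1) (x₂ := (l' a, l' b)) ((memS hh _ _).2 h2) h3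
    simp only [Prod.mk.injEq] at this
    simp only [Finset.mem_insert, Finset.mem_singleton] at hz
    rcases hz with rfl | rfl
    exacts [this.1, this.2]
  · rintro H ⟨x, y⟩ h1 ⟨x', y'⟩ h2 h3
    have := H (fun z => if z = a then x else y) (fun z => if z = a then x' else y')
      (by simpa [hab.symm] using (memS hh _ _).1 h1) (by simpa [hab.symm] using (memS hh _ _).1 h2)
      (by simpa [hab.symm] using h3)
    have f1 : x = x' := by simpa using this a (by simp)
    have f2 : y = y' := by simpa [hab.symm] using this b (by simp)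
    rw [f1, f2]

theorem result (h n : ℕ) (hh : 2 ≤ h) (hn : 0 < n) :
    ((h + 1) ^ 2 ≤ n ∧ (h % 2 = 0 ∨ n % 2 = 1 ∨ (h + 1) * (h + 2) ≤ n) → nu n 2 h = 4 * h) ∧
    (¬ ((h + 1) ^ 2 ≤ n ∧ (h % 2 = 0 ∨ n % 2 = 1 ∨ (h + 1) * (h + 2) ≤ n)) →
      nu n 2 h ≤ 4 * h - 1) := by
  have hb : BddAbove {k : ℕ | ∃ A : Finset (ZMod n), A.card = 2 ∧ (hpm h A).ncard = k} :=
    ⟨4 * h, by rintro k ⟨A, h1, rfl⟩; exact (link (by omega) A h1).1⟩
  have key := cyc h n hh hn
  constructor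
  · intro H
    obtain ⟨A, h1, h2⟩ := key.2 H
    refine le_antisymm (csSup_le' ?_) (le_csSup hb ⟨A, h2, (link (by omega) A h2).2.2 h1⟩)
    rintro k ⟨B, h3, rfl⟩
    exact (link (by omega) B h3).1
  · intro H
    refine csSup_le' ?_
    rintro k ⟨A, h1, rfl⟩
    have h2 := link (h := h) (by omega) A h1
    have h3 : (hpm h A).ncard ≠ 4 * h := fun e => H (key.1 ⟨A, h2.2.1 e, h1⟩)
    omega

end Pool.Agent.Results.MP_16712d_co.Two
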